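import Pool.Agent.Lib.MP_a9445a_lc.BE.Fin
import Pool.Agent.Lib.MP_a9445a_lc.BE.ClsD
import Pool.Agent.Lib.MP_a9445a_lc.BE.Lang2

/-!
# Faster exact bisection of graphs of large energy

For every `r > 0` there are `δ > 0`, `M` and a program `e` (of the functional language of
`BE/Lang.lean`, meaning `Ex.run` and logarithmic cost `Ex.time` in `BE/Lang2.lean`, a product of two `k × k` matrices is charged `k ^ τ`) which, for every
`τ ≥ 2`, runs in time `O (2 ^ ((τ / 3 - δ) n))` on all graphs with `n` vertices, and which, for even `n`,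
outputs a minimum bisection of every graph of average degree at most `1 / r` and of every graph of the class `Class r M`: after
deletion of at most `n / M` vertices the graph or its complement has energy `∑ |λ_i| ≥ r √(2 m n)`, or after
deletion of at most `n / 60` vertices it is edgeless or complete.
-/

set_option autoImplicit false

open Finset

namespace Pool.Agent.Results.MP_a9445a_lc.LargeEnergy

open Pool.Agent.MPa9445a.BE

/-- A smaller bound of the energy gives a larger class. -/
theorem class_mono {n M : ℕ} {r r' : ℝ} (h : r' ≤ r) {G : SimpleGraph (Fin n)}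
    (hG : Class r M G) : Class r' M G := by
  have key : ∀ G' : SimpleGraph (Fin n), Energetic r G' → Energetic r' G' := by
    intro G' hE
    exact (mul_le_mul_of_nonneg_right h (Real.sqrt_nonneg _)).trans hE
  obtain ⟨H, hH⟩ := hG
  refine ⟨H, ?_⟩
  rcases hH with ⟨h1, h2⟩ | h2
  · exact Or.inl ⟨h1, h2.imp (key _) (key _)⟩
  · exact Or.inr h2

/-- One program finds a minimum bisection, in time `O (2 ^ ((τ / 3 - δ) n))`, of all graphs of average
degree at most `1 / r` and of all graphs of `Class r M`. The time bound holds for all graphs. -/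
theorem result (r : ℝ) (hr : 0 < r) :
    ∃ (δ : ℝ) (M : ℕ) (e : Ex [.int, .arr] .arr), 0 < δ ∧ 0 < M ∧
      (∀ τ : ℝ, 2 ≤ τ → ∃ C : ℝ, ∀ (n : ℕ) (G : SimpleGraph (Fin n)),
        e.time τ ((n : ℤ), arrG G, ()) ≤ C * 2 ^ ((τ / 3 - δ) * n)) ∧
      ∀ n : ℕ, Even n → ∀ G : SimpleGraph (Fin n),
        (2 * (ne G : ℝ) ≤ 1 / r * n ∨ Class r M G) →
          IsMinBisection G (univ.filter fun v : Fin n =>
            nth (e.run ((n : ℤ), arrG G, ())) (v : ℕ) = 1) := by
  have h60 : 0 < 1 / (60 * Real.sqrt (1 / r + 1)) := by positivity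
  obtain ⟨δ, M, e, hδ, hM, hc, hE⟩ := main_thm (lt_min hr h60)
  refine ⟨δ, M, e, hδ, hM, fun τ hτ => ?_, fun n hn G hG => ?_⟩
  · obtain ⟨C, hC⟩ := hc τ hτ
    exact ⟨C, fun n G => by rw [Ex.time_eq]; exact hC n G⟩
  rw [Ex.run_eq]
  refine hE n hn G ?_
  rcases hG with hG | hG
  · exact class_mono (min_le_right _ _) (Class_of_degree (by positivity) M G hG)
  · exact class_mono (min_le_left _ _) hG

end Pool.Agent.Results.MP_a9445a_lc.LargeEnergy
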