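import Pool.Agent.Lib.MP_a9445a_lc.SN.Fin
import Pool.Agent.Lib.MP_a9445a_lc.BE.Lang2

/-!
# Exact bisection of all graphs in time `O (2 ^ (7 n / 9))`

There is one program `e` (of the functional language of `BE/Lang.lean`; meaning `Ex.run` and logarithmic cost `Ex.time`
in `BE/Lang2.lean`) with the input: number `n` of vertices, adjacency array of a graph `G`, array `ρ` of `L n` bits, `L n`
polynomial in `n`, such that
* for every `n`, every graph and every array of bits the running time is at most `C * 2 ^ (7 n / 9)`;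
* for every even `n` all but a fraction `2 ^ (- n ^ 2)` of the arrays `ρ` are such that `e` outputs a minimum bisection
  of every graph with `n` vertices; in particular one such array exists.

The algorithm does not use the matrix product: the time bound holds for every charge `k ^ τ`, `τ ≥ 2`, with the same
constant. Idea: for a maximum `x` of an even quadratic form `f` on the cube and a random set `D` the vector `x ^ D` with
flipped signs on `D` is uniform, and `f x + f (x ^ D) = 2 (f_D + f_{D^c})`.
-/

set_option autoImplicit false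

open Finset

namespace Pool.Agent.Results.MP_a9445a_lc.SevenNinths

open Pool.Agent.MPa9445a.BE
open Pool.Agent.MPa9445a.SN (rb)

open scoped Classical in
/-- One program with worst-case time `C 2 ^ (7 n / 9)` on all graphs and all arrays of random bits; for even `n` all but a
fraction `2 ^ (- n ^ 2)` of the arrays are such that it finds a minimum bisection of every graph with `n` vertices. -/
theorem result :
    ∃ (e : Ex [.int, .arr, .arr] .arr) (L : ℕ → ℕ) (k : ℕ) (C : ℝ),
      (∀ n, L n ≤ (n + 2) ^ k) ∧
      (∀ τ : ℝ, 2 ≤ τ → ∀ (n : ℕ) (G : SimpleGraph (Fin n)) (ρ : Fin (L n) → Bool),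
        e.time τ ((n : ℤ), arrG G, rb ρ, ()) ≤ C * 2 ^ ((7 / 9 : ℝ) * n)) ∧
      ∀ n : ℕ, Even n →
        (univ.filter fun ρ : Fin (L n) → Bool => ¬ ∀ G : SimpleGraph (Fin n),
          IsMinBisection G (univ.filter fun v : Fin n =>
            nth (e.run ((n : ℤ), arrG G, rb ρ, ())) (v : ℕ) = 1)).card * 2 ^ (n ^ 2) ≤ 2 ^ L n ∧
        ∃ ρ : Fin (L n) → Bool, ∀ G : SimpleGraph (Fin n),
          IsMinBisection G (univ.filter fun v : Fin n =>
            nth (e.run ((n : ℤ), arrG G, rb ρ, ())) (v : ℕ) = 1) := by
  obtain ⟨e, L, ⟨k, hk⟩, ⟨C, hC⟩, h⟩ := Pool.Agent.MPa9445a.SN.main_thm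
  refine ⟨e, L, k, C, hk, fun τ hτ n G ρ => ?_, fun n hn => ?_⟩
  · rw [Ex.time_eq]
    exact hC τ hτ n G ρ
  have h1 := h n hn
  rw [Ex.run_eq]
  refine ⟨h1, ?_⟩
  by_contra hne
  push Not at hne
  rcases Nat.eq_zero_or_pos n with h0 | h0
  · subst h0
    obtain ⟨G, hG⟩ := hne (fun _ => false)
    apply hG
    refine ⟨?_, fun Y _ => ?_⟩
    · simp
    · have hY : Y = ∅ := Finset.eq_empty_of_isEmpty Y
      rw [hY]
      refine le_of_eq ?_
      congr 1
  · have h2 : (univ.filter fun ρ : Fin (L n) → Bool => ¬ ∀ G : SimpleGraph (Fin n),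
          IsMinBisection G (univ.filter fun v : Fin n =>
            nth (e.eval ((n : ℤ), arrG G, rb ρ, ())) (v : ℕ) = 1)) = univ := by
      refine Finset.filter_true_of_mem fun ρ _ => ?_
      push Not
      exact hne ρ
    rw [h2, Finset.card_univ, Fintype.card_fun, Fintype.card_bool, Fintype.card_fin] at h1
    have h3 : 2 ≤ 2 ^ (n ^ 2) := by
      calc 2 = 2 ^ 1 := rfl
        _ ≤ 2 ^ (n ^ 2) := Nat.pow_le_pow_right (by norm_num) (Nat.one_le_iff_ne_zero.2 (by positivity))
    have h4 : 0 < 2 ^ L n := by positivity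
    nlinarith

end Pool.Agent.Results.MP_a9445a_lc.SevenNinths
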